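import Pool.Agent.helper34.MO.SpecC

/-! Row mo:TDI of project MO (MP_0631c5_co): triangle dominance, inductive form. -/

open Complex Finset

namespace Pool.Agent.MO

theorem TDI_sq (m : ℂ) : -(m - I) ^ 2 = (1 + I * m) ^ 2 := by
  have h : I ^ 2 = -1 := I_sq
  linear_combination (-(m ^ 2) - 1) * h

theorem TDI_al (a m P : ℂ) : (a - (m - I) ^ 2 / P).im = a.im + ((1 + I * m) ^ 2 / P).im := by
  rw [← TDI_sq m, neg_div, sub_eq_add_neg, Complex.add_im]

theorem TDI_iT_pos (t : ℝ) (m : ℕ) (ht : 10 ≤ t) : 0 < iT t m := by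
  unfold iT
  have hm : (0 : ℝ) ≤ (m : ℝ) := Nat.cast_nonneg m
  have h2 : 0 < t ^ 2 + 1.053 * (m : ℝ) := by nlinarith
  exact div_pos (by linarith) h2

/-- facts on the pivot -/
theorem TDI_piv (t : ℝ) (P : ℂ) (ht : 10 ≤ t) (h1 : t ≤ P.re) (h2 : |P.im| ≤ 2 / t * P.re) :
    0 < ‖P‖ ∧ 0.9805 * ‖P‖ ≤ P.re ∧ P.re / ‖P‖ ^ 2 ≤ 1 / t := by
  have htp : 0 < t := by linarith
  have hre : 0 < P.re := by linarith
  have hle : P.re ≤ ‖P‖ := le_trans (le_abs_self _) (Complex.abs_re_le_norm P)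
  have hP : 0 < ‖P‖ := by linarith
  have h3 : |P.im| ≤ 0.2 * P.re := by
    have : 2 / t ≤ 0.2 := by
      rw [div_le_iff₀ htp]; linarith
    nlinarith
  have hsq : ‖P‖ ^ 2 = P.re ^ 2 + P.im ^ 2 := by
    rw [Complex.sq_norm, Complex.normSq_apply]; ring
  have him : P.im ^ 2 ≤ 0.04 * P.re ^ 2 := by
    have h4 : P.im ^ 2 = |P.im| ^ 2 := (sq_abs _).symm
    have h5 : 0 ≤ |P.im| := abs_nonneg _
    rw [h4]
    nlinarith
  refine ⟨hP, ?_, ?_⟩
  · by_contra hcon
    push Not at hcon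
    have h6 : 0 ≤ P.re := hre.le
    have h7 : P.re ^ 2 < (0.9805 * ‖P‖) ^ 2 := by
      apply pow_lt_pow_left₀ hcon h6 (by norm_num)
    rw [mul_pow, hsq] at h7
    nlinarith
  · rw [div_le_div_iff₀ (by positivity) htp]
    nlinarith

theorem TDI_norm (t : ℝ) (l r : Tr) (ht : 10 ≤ t) (hINV : INV_stmt) :
    ‖pv t (bd (uni t l)) (bd (uni t r))‖ ≤ t + 1.053 * ((l.rs + r.ls : ℕ) : ℝ) / t := by
  have htp : 0 < t := by linarith
  unfold pv
  have h1 := (hINV t l ht).2.2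
  have h2 := (hINV t r ht).2.1
  have h3 : ‖((t : ℝ) : ℂ)‖ = t := by
    rw [Complex.norm_real, Real.norm_eq_abs, abs_of_pos htp]
  have h4 : ‖(t : ℂ) + (bd (uni t l)).be + (bd (uni t r)).al‖ ≤
      ‖(t : ℂ)‖ + ‖(bd (uni t l)).be‖ + ‖(bd (uni t r)).al‖ :=
    le_trans (norm_add_le _ _) (by
      have := norm_add_le (t : ℂ) (bd (uni t l)).be
      linarith)
  push_cast
  have h5 : 1.053 * ((l.rs : ℝ) + (r.ls : ℝ)) / t = 1.053 * (l.rs : ℝ) / t + 1.053 * (r.ls : ℝ) / t := by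
    ring
  rw [h5]
  linarith

theorem TDI_inv (t x : ℝ) (m : ℕ) (ht : 10 ≤ t) (hx : 0 < x) (h : x ≤ t + 1.053 * (m : ℝ) / t) :
    iT t m ≤ 1 / x := by
  have htp : 0 < t := by linarith
  have hm : (0 : ℝ) ≤ (m : ℝ) := Nat.cast_nonneg m
  unfold iT
  have h2 : 0 < t ^ 2 + 1.053 * (m : ℝ) := by nlinarith
  rw [div_le_div_iff₀ h2 hx]
  have h3 : t * x ≤ t * (t + 1.053 * (m : ℝ) / t) := mul_le_mul_of_nonneg_left h htp.le
  have h4 : t * (t + 1.053 * (m : ℝ) / t) = t ^ 2 + 1.053 * (m : ℝ) := by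
    field_simp
  linarith

/-- the lower bound for the new weight of the product term -/
theorem TDI_low (x re a w i j : ℝ) (hx : 0 < x) (hre : 0.9805 * x ≤ re) (hi : 0 < i) (hj : 0 < j)
    (hw : 0.979 * i ≤ w) (hji : j ≤ 1 / x) (ha : a = w * (re / x ^ 2)) :
    0.9599 * i * j ≤ a := by
  subst ha
  have h1 : 0.9805 * (1 / x) ≤ re / x ^ 2 := by
    rw [mul_one_div, div_le_div_iff₀ hx (by positivity)]
    nlinarith
  have h2 : 0.9805 * j ≤ re / x ^ 2 := by linarith
  have h3 : 0.979 * i * (0.9805 * j) ≤ w * (re / x ^ 2) := by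
    apply mul_le_mul hw h2 (by positivity)
    have : 0 < i := hi
    linarith [mul_pos (by norm_num : (0 : ℝ) < 0.979) hi]
  have h4 : 0 < i * j := mul_pos hi hj
  nlinarith

theorem TDI (hLOC : LOC_stmt) (hINV : INV_stmt) (hSCP : SCP_stmt) : TDI_stmt := by
  intro t τ
  induction τ with
  | e =>
    intro ma mb wa wb om ht _ _ _ _ _ _
    simp [ZT, uni, bd]
  | nd l r ihl ihr =>
    intro ma mb wa wb om ht hwa1 hwa2 hwb1 hwb2 hom1 hom2
    have htp : 0 < t := by linarith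
    have hia : 0 < iT t ma := TDI_iT_pos t ma ht
    have hib : 0 < iT t mb := TDI_iT_pos t mb ht
    have him : 0 < iT t (l.rs + r.ls) := TDI_iT_pos t _ ht
    have hwa0 : 0 ≤ wa := by linarith [mul_pos (by norm_num : (0 : ℝ) < 0.979) hia]
    have hwb0 : 0 ≤ wb := by linarith [mul_pos (by norm_num : (0 : ℝ) < 0.979) hib]
    have hab : 0 < iT t ma * iT t mb := mul_pos hia hib
    have hom0 : 0 ≤ om := by
      have : 0.9599 * iT t ma * iT t mb = 0.9599 * (iT t ma * iT t mb) := by ring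
      rw [this] at hom1
      linarith [mul_pos (by norm_num : (0 : ℝ) < 0.9599) hab]
    obtain ⟨hP1, hP2⟩ := (hSCP t l r htp).1
    have hRl := (hINV t l ht).1
    have hRr := (hINV t r ht).1
    have hPn := TDI_norm t l r ht hINV
    have hPim : (pv t (bd (uni t l)) (bd (uni t r))).im = (bd (uni t l)).be.im + (bd (uni t r)).al.im := by
      unfold pv
      simp
    obtain ⟨wc, hwc1, hwc2, hloc⟩ := hLOC t (pv t (bd (uni t l)) (bd (uni t r))) (bd (uni t l)).mu
      (bd (uni t r)).mu wa wb om ht hP1 hP2 hRl hRr hwa0 hwa2 hwb0 hwb2 hom0 hom2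
    obtain ⟨hpos, hre, hret⟩ := TDI_piv t _ ht hP1 hP2
    have hji := TDI_inv t _ (l.rs + r.ls) ht hpos hPn
    have hwc3 : 0.979 * iT t (l.rs + r.ls) ≤ wc := by
      have : 0.979 / ‖pv t (bd (uni t l)) (bd (uni t r))‖ = 0.979 * (1 / ‖pv t (bd (uni t l)) (bd (uni t r))‖) := by
        ring
      rw [this] at hwc1
      linarith
    have hwc0 : 0 ≤ wc := by linarith [mul_pos (by norm_num : (0 : ℝ) < 0.979) him]
    have hratio0 : 0 ≤ (pv t (bd (uni t l)) (bd (uni t r))).re / ‖pv t (bd (uni t l)) (bd (uni t r))‖ ^ 2 := by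
      apply div_nonneg _ (by positivity)
      linarith
    have h1 := ihl ma (l.rs + r.ls) wa wc
      (wa * ((pv t (bd (uni t l)) (bd (uni t r))).re / ‖pv t (bd (uni t l)) (bd (uni t r))‖ ^ 2)) ht hwa1 hwa2
      hwc3 hwc2 (TDI_low _ _ _ wa _ _ hpos hre hia him hwa1 hji rfl)
      (by
        calc wa * ((pv t (bd (uni t l)) (bd (uni t r))).re / ‖pv t (bd (uni t l)) (bd (uni t r))‖ ^ 2)
            ≤ wa * (1 / t) := mul_le_mul_of_nonneg_left hret hwa0
          _ = 1 / t * wa := mul_comm _ _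
          _ ≤ 1 / t * max wa wc := mul_le_mul_of_nonneg_left (le_max_left _ _) (by positivity))
    have h2 := ihr (l.rs + r.ls) mb wc wb
      (wb * ((pv t (bd (uni t l)) (bd (uni t r))).re / ‖pv t (bd (uni t l)) (bd (uni t r))‖ ^ 2)) ht hwc3 hwc2
      hwb1 hwb2
      (by
        have := TDI_low _ _ _ wb _ _ hpos hre hib him hwb1 hji rfl
        have h3 : 0.9599 * iT t (l.rs + r.ls) * iT t mb = 0.9599 * iT t mb * iT t (l.rs + r.ls) := by ring
        rw [h3]
        exact this)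
      (by
        calc wb * ((pv t (bd (uni t l)) (bd (uni t r))).re / ‖pv t (bd (uni t l)) (bd (uni t r))‖ ^ 2)
            ≤ wb * (1 / t) := mul_le_mul_of_nonneg_left hret hwb0
          _ = 1 / t * wb := mul_comm _ _
          _ ≤ 1 / t * max wc wb := mul_le_mul_of_nonneg_left (le_max_right _ _) (by positivity))
    have h3 : 0.83 * (2 * iT t (l.rs + r.ls) * iT t ma * iT t mb) ≤
        2 * 0.87 * om / ‖pv t (bd (uni t l)) (bd (uni t r))‖ := by
      have e1 : 2 * 0.87 * om / ‖pv t (bd (uni t l)) (bd (uni t r))‖ =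
          1.74 * (om * (1 / ‖pv t (bd (uni t l)) (bd (uni t r))‖)) := by ring
      rw [e1]
      have e2 : 0.9599 * iT t ma * iT t mb * iT t (l.rs + r.ls) ≤
          om * (1 / ‖pv t (bd (uni t l)) (bd (uni t r))‖) :=
        mul_le_mul hom1 hji him.le hom0
      have e3 : 0 < iT t ma * iT t mb * iT t (l.rs + r.ls) := mul_pos hab him
      nlinarith
    have hbd : bd (uni t (Tr.nd l r)) = comb t (bd (uni t l)) (bd (uni t r)) := rfl
    rw [hbd]
    have hal : (comb t (bd (uni t l)) (bd (uni t r))).al =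
        (bd (uni t l)).al - ((bd (uni t l)).mu - I) ^ 2 / pv t (bd (uni t l)) (bd (uni t r)) := rfl
    have hbe : (comb t (bd (uni t l)) (bd (uni t r))).be =
        (bd (uni t r)).be - ((bd (uni t r)).mu - I) ^ 2 / pv t (bd (uni t l)) (bd (uni t r)) := rfl
    have hmu : (comb t (bd (uni t l)) (bd (uni t r))).mu =
        -(((bd (uni t l)).mu - I) * ((bd (uni t r)).mu - I)) / pv t (bd (uni t l)) (bd (uni t r)) := rfl
    have hps : (comb t (bd (uni t l)) (bd (uni t r))).psi =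
        (bd (uni t l)).psi + (bd (uni t r)).psi + arg (pv t (bd (uni t l)) (bd (uni t r))) := rfl
    have hZ : ZT t (Tr.nd l r) ma mb = 2 * iT t (l.rs + r.ls) * iT t ma * iT t mb + ZT t l ma (l.rs + r.ls) +
        ZT t r (l.rs + r.ls) mb := rfl
    rw [hal, hbe, hmu, hps, hZ, TDI_al, TDI_al]
    rw [hPim] at hloc
    have e4 : wc * ((bd (uni t l)).be.im + (bd (uni t r)).al.im) =
        wc * (bd (uni t l)).be.im + wc * (bd (uni t r)).al.im := by ring
    rw [e4] at hloc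
    linarith

end Pool.Agent.MO
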